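import Mathlib

/-!
# MP_405999_gt : the space of points of a locally temperate frame is locally strongly sober
-/

namespace Pool.Agent.Results.MP_405999_gt.PointsLSS

open Set Topology

universe u

section defs

variable {L : Type u} [Order.Frame L]

/-- `F` is a filter on the lattice `L`. -/
def IsFilt (F : Set L) : Prop :=
  F.Nonempty ∧ (∀ a ∈ F, ∀ b, a ≤ b → b ∈ F) ∧ ∀ a ∈ F, ∀ b ∈ F, a ⊓ b ∈ F

/-- `U` is Scott-open. -/
def ScottOpen (U : Set L) : Prop :=
  (∀ a ∈ U, ∀ b, a ≤ b → b ∈ U) ∧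
    ∀ D : Set L, D.Nonempty → DirectedOn (· ≤ ·) D → sSup D ∈ U → ∃ d ∈ D, d ∈ U

/-- The join `{u ⊓ v | u ∈ F, v ∈ G}` of two filters. -/
def join (F G : Set L) : Set L := {w | ∃ u ∈ F, ∃ v ∈ G, w = u ⊓ v}

/-- The filter `F` is completely prime. -/
def CompletelyPrime (F : Set L) : Prop :=
  IsFilt F ∧ ∀ D : Set L, sSup D ∈ F → ∃ d ∈ D, d ∈ F

variable (L)

/-- `L` is locally temperate: the join of any two Scott-open filters is Scott-open. -/
def LocallyTemperate : Prop :=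
  ∀ F G : Set L, IsFilt F → ScottOpen F → IsFilt G → ScottOpen G → ScottOpen (join F G)

/-- The space of points of `L`: its points are the completely prime filters. -/
def Pt : Type u := {F : Set L // CompletelyPrime F}

variable {L}

/-- The open set `O_u`. -/
def OO (u : L) : Set (Pt L) := {x | u ∈ x.1}

end defs

section points

variable {L : Type u} [Order.Frame L]

lemma OO_inf (u v : L) : OO (u ⊓ v) = OO u ∩ OO v := by
  ext x
  constructor
  · intro h
    exact ⟨x.2.1.2.1 _ h _ inf_le_left, x.2.1.2.1 _ h _ inf_le_right⟩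
  · rintro ⟨h1, h2⟩
    exact x.2.1.2.2 _ h1 _ h2

lemma OO_sSup (D : Set L) : OO (sSup D) = ⋃ u ∈ D, OO u := by
  ext x
  simp only [mem_iUnion, exists_prop]
  constructor
  · intro h
    obtain ⟨d, hd, hd'⟩ := x.2.2 D h
    exact ⟨d, hd, hd'⟩
  · rintro ⟨d, hd, hd'⟩
    exact x.2.1.2.1 _ hd' _ (le_sSup hd)

lemma OO_top : OO (⊤ : L) = univ := by
  rw [eq_univ_iff_forall]
  intro x
  obtain ⟨a, ha⟩ := x.2.1.1
  exact x.2.1.2.1 a ha _ le_top

lemma OO_bot : OO (⊥ : L) = ∅ := by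
  rw [← sSup_empty, OO_sSup]
  simp

lemma OO_mono {u v : L} (h : u ≤ v) : OO u ⊆ OO v := fun x hx => x.2.1.2.1 _ hx _ h

/-- The topology of `Pt L`: the open sets are exactly the `O_u`. -/
instance : TopologicalSpace (Pt L) where
  IsOpen U := ∃ u : L, U = OO u
  isOpen_univ := ⟨⊤, OO_top.symm⟩
  isOpen_inter := by
    rintro _ _ ⟨u, rfl⟩ ⟨v, rfl⟩
    exact ⟨u ⊓ v, (OO_inf u v).symm⟩
  isOpen_sUnion := by
    intro S hS
    refine ⟨sSup {u : L | OO u ∈ S}, ?_⟩
    rw [OO_sSup]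
    ext x
    simp only [mem_sUnion, mem_iUnion, exists_prop]
    constructor
    · rintro ⟨U, hU, hx⟩
      obtain ⟨u, rfl⟩ := hS U hU
      exact ⟨u, hU, hx⟩
    · rintro ⟨u, hu, hx⟩
      exact ⟨_, hu, hx⟩

lemma isOpen_iff (U : Set (Pt L)) : IsOpen U ↔ ∃ u : L, U = OO u := Iff.rfl

end points

/-- The set of limits of an ultrafilter. -/
def lims {X : Type u} [TopologicalSpace X] (F : Ultrafilter X) : Set X :=
  {x | ∀ U : Set X, IsOpen U → x ∈ U → U ∈ F}

/-- `X` is locally strongly sober. -/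
def LocallyStronglySober (X : Type u) [TopologicalSpace X] : Prop :=
  ∀ F : Ultrafilter X, lims F = ∅ ∨ ∃! x : X, lims F = closure {x}

section proof

variable {L : Type u} [Order.Frame L]

/-- A maximal element outside of a Scott-open filter is prime and gives a point. -/
lemma exists_point {P : Set L} (hP : ScottOpen P) (hinf : ∀ a ∈ P, ∀ b ∈ P, a ⊓ b ∈ P) (hne : P.Nonempty)
    {w : L} (hw : w ∉ P) : ∃ z : Pt L, (∀ u ∈ z.1, ¬ u ≤ w) ∧ ∀ u ∈ P, u ∈ z.1 := by
  obtain ⟨p, hwp, hp⟩ := zorn_le_nonempty₀ (Pᶜ) (by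
    intro c hc hchain y hy
    refine ⟨sSup c, ?_, fun z hz => le_sSup hz⟩
    intro hcon
    obtain ⟨d, hd, hd'⟩ := hP.2 c ⟨y, hy⟩ hchain.directedOn hcon
    exact hc hd hd') w hw
  have hpP : p ∉ P := hp.1
  have hmax : ∀ u, ¬ u ≤ p → p ⊔ u ∈ P := by
    intro u hu
    by_contra hcon
    exact hu ((le_sup_right).trans (hp.2 hcon le_sup_left))
  refine ⟨⟨{u | ¬ u ≤ p}, ⟨?_, ?_, ?_⟩, ?_⟩, ?_, ?_⟩
  · obtain ⟨a, ha⟩ := hne
    exact ⟨a, fun h => hpP (hP.1 a ha p h)⟩
  · intro a ha b hab hb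
    exact ha (hab.trans hb)
  · intro a ha b hb hab
    have h1 := hinf _ (hmax a ha) _ (hmax b hb)
    rw [← sup_inf_left] at h1
    rw [sup_eq_left.2 hab] at h1
    exact hpP h1
  · intro D hD
    by_contra hcon
    push Not at hcon
    exact hD (sSup_le fun d hd => by
      have := hcon d hd
      simpa using this)
  · intro u hu huw
    exact hu (huw.trans hwp)
  · intro u hu hup
    exact hpP (hP.1 u hu p hup)

theorem pt_lss (hL : LocallyTemperate L) : LocallyStronglySober (Pt L) := by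
  intro F
  rcases (lims F).eq_empty_or_nonempty with h | hne
  · exact Or.inl h
  right
  set C := lims F with hC
  -- points are Scott-open filters
  have hSO : ∀ x : Pt L, ScottOpen x.1 := fun x => ⟨x.2.1.2.1, fun D _ _ hD => x.2.2 D hD⟩
  -- `C` is irreducible
  have hirr : ∀ u v : L, (C ∩ OO u).Nonempty → (C ∩ OO v).Nonempty → (C ∩ OO (u ⊓ v)).Nonempty := by
    rintro u v ⟨x, hxC, hxu⟩ ⟨y, hyC, hyv⟩
    set P := join x.1 y.1 with hPdef
    have hP : ScottOpen P := hL _ _ x.2.1 (hSO x) y.2.1 (hSO y)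
    have huv : u ⊓ v ∈ P := ⟨u, hxu, v, hyv, rfl⟩
    have hinf : ∀ a ∈ P, ∀ b ∈ P, a ⊓ b ∈ P := by
      rintro _ ⟨a, ha, a', ha', rfl⟩ _ ⟨b, hb, b', hb', rfl⟩
      refine ⟨a ⊓ b, x.2.1.2.2 _ ha _ hb, a' ⊓ b', y.2.1.2.2 _ ha' _ hb', ?_⟩
      exact inf_inf_inf_comm a a' b b'
    set W : Set L := {a | OO a ∉ F} with hW
    have hw : sSup W ∉ P := by
      intro hcon
      have hWne : W.Nonempty := ⟨⊥, by
        rw [hW]
        show OO (⊥ : L) ∉ F
        rw [OO_bot]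
        exact F.empty_notMem⟩
      have hWdir : DirectedOn (· ≤ ·) W := by
        intro a ha b hb
        refine ⟨a ⊔ b, ?_, le_sup_left, le_sup_right⟩
        show OO (a ⊔ b) ∉ F
        rw [← sSup_pair, OO_sSup]
        have : ⋃ c ∈ ({a, b} : Set L), OO c = OO a ∪ OO b := by simp
        rw [this, Ultrafilter.union_mem_iff]
        rintro (h | h)
        · exact ha h
        · exact hb h
      obtain ⟨a, haW, haP⟩ := hP.2 W hWne hWdir hcon
      obtain ⟨s, hs, t, ht, rfl⟩ := haP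
      apply haW
      rw [OO_inf]
      exact Filter.inter_mem (hxC _ ⟨s, rfl⟩ hs) (hyC _ ⟨t, rfl⟩ ht)
    obtain ⟨z, hz1, hz2⟩ := exists_point hP hinf ⟨_, huv⟩ hw
    refine ⟨z, ?_, hz2 _ huv⟩
    rintro _ ⟨a, rfl⟩ ha
    by_contra hcon
    exact hz1 a ha (le_sSup hcon)
  -- the generic point
  have hz0 : CompletelyPrime {u : L | (C ∩ OO u).Nonempty} := by
    refine ⟨⟨?_, ?_, ?_⟩, ?_⟩
    · obtain ⟨x, hx⟩ := hne
      exact ⟨⊤, x, hx, by rw [OO_top]; trivial⟩
    · rintro a ⟨x, hx, hxa⟩ b hab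
      exact ⟨x, hx, OO_mono hab hxa⟩
    · exact fun a ha b hb => hirr a b ha hb
    · rintro D ⟨x, hx, hxD⟩
      rw [OO_sSup] at hxD
      simp only [mem_iUnion, exists_prop] at hxD
      obtain ⟨d, hd, hxd⟩ := hxD
      exact ⟨d, hd, x, hx, hxd⟩
  have hclosed : ∀ x : Pt L, (∀ u : L, u ∈ x.1 → (C ∩ OO u).Nonempty) → x ∈ C := by
    rintro x hx _ ⟨u, rfl⟩ hxu
    obtain ⟨y, hyC, hyu⟩ := hx u hxu
    exact hyC _ ⟨u, rfl⟩ hyu
  have hmem : ∀ x y : Pt L, x ∈ closure {y} ↔ x.1 ⊆ y.1 := by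
    intro x y
    rw [mem_closure_iff]
    constructor
    · intro h u hu
      obtain ⟨_, h1, rfl⟩ := h (OO u) ⟨u, rfl⟩ hu
      exact h1
    · rintro h _ ⟨u, rfl⟩ hu
      exact ⟨y, h hu, rfl⟩
  refine ⟨⟨_, hz0⟩, ?_, ?_⟩
  · ext x
    rw [hmem]
    constructor
    · intro hx u hu
      exact ⟨x, hx, hu⟩
    · intro hx
      exact hclosed x hx
  · intro y hy
    apply Subtype.ext
    apply Subset.antisymm
    · intro u hu
      have hyC : y ∈ C := by
        rw [hy]; exact subset_closure rfl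
      exact ⟨y, hyC, hu⟩
    · rintro u ⟨x, hxC, hxu⟩
      rw [hy, hmem] at hxC
      exact hxC hxu

end proof

/-- The space of points of a locally temperate frame is locally strongly sober. -/
theorem result : ∀ (L : Type u) [Order.Frame L], LocallyTemperate L → LocallyStronglySober (Pt L) :=
  fun _ _ h => pt_lss h

end Pool.Agent.Results.MP_405999_gt.PointsLSS
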